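import Pool.Agent.Helper185.SelMore

/-!
The four properties `S₁(T, T)`, `S₁(Γ, T)`, `S₁(B_T, B_T)`, `S₁(B_Γ, B_T)` are preserved under
countable unions, in all topological spaces, as soon as the pieces are second countable and
Hausdorff; more generally they are preserved under countable unions of continuous images (and,
for the two Borel versions, of Borel images).
-/

namespace Pool.Agent.Results.MP_9c4169_gt.CountableUnions

open Set Pool.Agent.Helper185.Sel

universe u

section aux

variable {X : Type u} [TopologicalSpace X] {G : Set (Set (Set X))}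
  {Y : ℕ → Type u} [∀ n, TopologicalSpace (Y n)] [∀ n, SecondCountableTopology (Y n)]
  [∀ n, T2Space (Y n)] {H : ∀ n, Set (Set (Set (Y n)))}

theorem good_of_cover (hG : Adm G) (hH : ∀ n, Adm (H n)) (f : ∀ n, Y n → X)
    (hpull : ∀ n, ∀ U ∈ G, (fun u => f n ⁻¹' u) '' U ∈ H n) (hcov : (⋃ n, range (f n)) = univ)
    (h : ∀ n, S1 (GammaOf (H n)) (TauOf (H n))) : Good G univ := by
  rw [← hcov]
  exact good_iUnion hG (fun n => good_range (hH n) (f n) (hpull n)
    (s1_gamma_gamma_of_good (hH n) (good_of_s1_gamma_tau (hH n) (h n))))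

theorem s1_gamma_tau_of_cover (hG : Adm G) (hH : ∀ n, Adm (H n)) (f : ∀ n, Y n → X)
    (hpull : ∀ n, ∀ U ∈ G, (fun u => f n ⁻¹' u) '' U ∈ H n) (hcov : (⋃ n, range (f n)) = univ)
    (h : ∀ n, S1 (GammaOf (H n)) (TauOf (H n))) : S1 (GammaOf G) (TauOf G) :=
  (s1_gamma_gamma_of_good hG (good_of_cover hG hH f hpull hcov h)).mono_right gamma_sub_tau

/-- countably many sets that cover: `(T choose Γ)` for the union -/
theorem tauGamma_iUnion (hG : Adm G) {B : ℕ → Set X} (hcov : (⋃ n, B n) = univ)
    (hB : ∀ n, ∀ U ∈ TauOf G, ∃ V ⊆ U, V.Infinite ∧ ∀ x ∈ B n, {v | v ∈ V ∧ x ∉ v}.Finite) :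
    TauGamma G := by
  intro U hU
  obtain ⟨hUG, hc, hl⟩ := tau_iff.1 hU
  have key : ∀ D : Set X, (∃ V ⊆ U, V.Infinite ∧ ∀ x ∈ D, {v | v ∈ V ∧ x ∉ v}.Finite) →
      (∀ z, ∃ y ∈ D, Le U y z) → ∃ V ⊆ U, V ∈ GammaOf G := by
    rintro D ⟨V, hVU, hVinf, hV⟩ hco
    refine ⟨V, hVU, gamma_of_seq (hG.mono hUG hVU) (fun h => hc.2 (hVU h)) hVinf ?_⟩
    intro x
    obtain ⟨y, hy, hyx⟩ := hco x
    apply ((hV y hy).union hyx).subset
    rintro v ⟨hv, hxv⟩
    by_cases hyv : y ∈ v
    · exact Or.inr ⟨hVU hv, hyv, hxv⟩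
    · exact Or.inl ⟨hv, hyv⟩
  by_cases h1 : ∃ n, ∀ z, ∃ y ∈ B n, Le U y z
  · obtain ⟨n, hn⟩ := h1
    exact key (B n) (hB n U hU) hn
  push Not at h1
  choose z hz using h1
  obtain ⟨V, hVU, hVinf, hV⟩ := hl.exists_pseudo z
  refine key (range z) ⟨V, hVU, hVinf, ?_⟩ ?_
  · rintro _ ⟨i, rfl⟩
    exact hV i
  · intro x
    have hx : x ∈ ⋃ n, B n := by rw [hcov]; trivial
    obtain ⟨n, hn⟩ := mem_iUnion.1 hx
    exact ⟨z n, mem_range_self n, (hl.lin (z n) x).resolve_right (hz n x hn)⟩

theorem s1_tau_tau_of_cover (hG : Adm G) (hH : ∀ n, Adm (H n)) (f : ∀ n, Y n → X)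
    (hpull : ∀ n, ∀ U ∈ G, (fun u => f n ⁻¹' u) '' U ∈ H n) (hcov : (⋃ n, range (f n)) = univ)
    (h : ∀ n, S1 (TauOf (H n)) (TauOf (H n))) : S1 (TauOf G) (TauOf G) := by
  have g : Good G univ := good_of_cover hG hH f hpull hcov
    (fun n => (h n).mono_left gamma_sub_tau)
  have t : TauGamma G := tauGamma_iUnion hG hcov (fun n U hU =>
    tau_range (f n) hG (hpull n) (fun V hV => exists_gamma_of_s1_tau_tau (hH n) (h n) hV) hU)
  exact (s1_tau_gamma hG t g).mono_right gamma_sub_tau

omit [∀ n, SecondCountableTopology (Y n)] [∀ n, T2Space (Y n)] in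
theorem pull_borel' {n : ℕ} {ι : Y n → X} (hι : @Measurable _ _ (borel (Y n)) (borel X) ι) :
    ∀ U ∈ BorelFam X, (fun u => ι ⁻¹' u) '' U ∈ BorelFam (Y n) := by
  rintro U ⟨hU1, hU2⟩
  refine ⟨hU1.image _, ?_⟩
  rintro _ ⟨u, hu, rfl⟩
  exact hι (hU2 u hu)

end aux

/-- The four properties: `S₁(T, T)`, `S₁(Γ, T)` and their Borel versions. -/
inductive Kind
  | tauTau
  | gammaTau
  | borelTauTau
  | borelGammaTau

/-- The space `X` has the property `k`. -/
def Has (k : Kind) (X : Type u) [TopologicalSpace X] : Prop :=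
  match k with
  | .tauTau => S1 (TauOf (OpenFam X)) (TauOf (OpenFam X))
  | .gammaTau => S1 (GammaOf (OpenFam X)) (TauOf (OpenFam X))
  | .borelTauTau => S1 (TauOf (BorelFam X)) (TauOf (BorelFam X))
  | .borelGammaTau => S1 (GammaOf (BorelFam X)) (TauOf (BorelFam X))

/-- A map is admissible for the property `k` if it is continuous or, for the two Borel
properties, if it is Borel measurable. -/
def Admissible (k : Kind) {Y X : Type u} [TopologicalSpace Y] [TopologicalSpace X]
    (f : Y → X) : Prop :=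
  match k with
  | .tauTau => Continuous f
  | .gammaTau => Continuous f
  | .borelTauTau => @Measurable Y X (borel Y) (borel X) f
  | .borelGammaTau => @Measurable Y X (borel Y) (borel X) f

theorem Admissible.of_continuous (k : Kind) {Y X : Type u} [TopologicalSpace Y]
    [TopologicalSpace X] {f : Y → X} (hf : Continuous f) : Admissible k f := by
  cases k
  · exact hf
  · exact hf
  · exact hf.borel_measurable
  · exact hf.borel_measurable

theorem has_of_cover (k : Kind) (X : Type u) [TopologicalSpace X] (Y : ℕ → Type u)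
    [∀ n, TopologicalSpace (Y n)] [∀ n, SecondCountableTopology (Y n)] [∀ n, T2Space (Y n)]
    (f : ∀ n, Y n → X) (hf : ∀ n, Admissible k (f n)) (hcov : (⋃ n, range (f n)) = univ)
    (h : ∀ n, Has k (Y n)) : Has k X := by
  cases k
  · exact s1_tau_tau_of_cover (adm_open X) (fun n => adm_open (Y n)) f
      (fun n => pull_open (hf n)) hcov h
  · exact s1_gamma_tau_of_cover (adm_open X) (fun n => adm_open (Y n)) f
      (fun n => pull_open (hf n)) hcov h
  · exact s1_tau_tau_of_cover (adm_borel X) (fun n => adm_borel (Y n)) f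
      (fun n => pull_borel' (hf n)) hcov h
  · exact s1_gamma_tau_of_cover (adm_borel X) (fun n => adm_borel (Y n)) f
      (fun n => pull_borel' (hf n)) hcov h

theorem has_iUnion (k : Kind) (X : Type u) [TopologicalSpace X] (A : ℕ → Set X)
    (hA : ∀ n, SecondCountableTopology (A n) ∧ T2Space (A n)) (h : ∀ n, Has k (A n)) :
    Has k (⋃ n, A n : Set X) := by
  have h1 : ∀ n, SecondCountableTopology (A n) := fun n => (hA n).1
  have h2 : ∀ n, T2Space (A n) := fun n => (hA n).2
  refine has_of_cover k (⋃ n, A n : Set X) (fun n => (A n : Set X))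
    (fun n => inclusion (subset_iUnion A n))
    (fun n => Admissible.of_continuous k (continuous_inclusion _)) ?_ h
  rw [eq_univ_iff_forall]
  rintro ⟨x, hx⟩
  obtain ⟨n, hn⟩ := mem_iUnion.1 hx
  exact mem_iUnion.2 ⟨n, ⟨x, hn⟩, rfl⟩

/-- For each of the four properties:
(1) if countably many second countable Hausdorff spaces `Y n` have the property and admissible
maps `f n : Y n → X` together cover the topological space `X`, then `X` has the property;
(2) in every topological space, the union of countably many second countable Hausdorff subspaces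
with the property has the property;
(3) the property is preserved under finite unions of sets of reals. -/
theorem result : ∀ k : Kind,
    (∀ (X : Type u) [TopologicalSpace X] (Y : ℕ → Type u) [∀ n, TopologicalSpace (Y n)]
      [∀ n, SecondCountableTopology (Y n)] [∀ n, T2Space (Y n)] (f : ∀ n, Y n → X),
      (∀ n, Admissible k (f n)) → (⋃ n, range (f n)) = univ → (∀ n, Has k (Y n)) → Has k X) ∧
    (∀ (X : Type u) [TopologicalSpace X] (A : ℕ → Set X),
      (∀ n, SecondCountableTopology (A n) ∧ T2Space (A n)) → (∀ n, Has k (A n)) →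
      Has k (⋃ n, A n : Set X)) ∧
    (∀ A B : Set ℝ, Has k A → Has k B → Has k (A ∪ B : Set ℝ)) := by
  intro k
  refine ⟨fun X _ Y _ _ _ f hf hcov h => has_of_cover k X Y f hf hcov h,
    fun X _ A hA h => has_iUnion k X A hA h, fun A B hA hB => ?_⟩
  have h1 := has_iUnion k ℝ (fun n : ℕ => if n = 0 then A else B)
    (fun n => ⟨inferInstance, inferInstance⟩) (fun n => by
      by_cases hn : n = 0
      · subst hn; exact hA
      · have : (if n = 0 then A else B) = B := if_neg hn
        rw [this]; exact hB)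
  have h2 : (⋃ n : ℕ, if n = 0 then A else B) = A ∪ B := by
    ext x
    simp only [mem_iUnion, mem_union]
    constructor
    · rintro ⟨n, hn⟩
      by_cases h0 : n = 0
      · rw [if_pos h0] at hn; exact Or.inl hn
      · rw [if_neg h0] at hn; exact Or.inr hn
    · rintro (h | h)
      · exact ⟨0, by simpa using h⟩
      · exact ⟨1, by simpa using h⟩
  rw [← h2]
  exact h1

end Pool.Agent.Results.MP_9c4169_gt.CountableUnions
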